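import Pool.Agent.H756.SB.Stm2

/-!
# Signed order cones: probability, Poincare and Cheeger (project SB, package FACTS)

Adapted from `Pool.Agent.U959.OC.Fin`.
-/

set_option autoImplicit false

namespace Pool.Agent.U394.SB

open MeasureTheory Set Filter Topology
open scoped ENNReal InnerProductSpace
open Pool.Agent.W695.KH (Eu EU Sm Pot)
open Pool.Agent.R972.OP (WC lp pd)
open Pool.Agent.U959.OC
open Pool.Agent.H756.SB

variable {ρ : ℝ → ℝ} {n : ℕ}

/-- strict version of a relation -/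
def stS (S : Fin n × Bool → Fin n × Bool → Prop) (a b : Fin n × Bool) : Prop := S a b ∧ a ≠ b

theorem conE_st (S : Fin n × Bool → Fin n × Bool → Prop) : conE (stS S) = conE S := by
  ext x
  constructor
  · intro hx u v huv
    by_cases h : u = v
    · rw [h]
    · exact hx u v ⟨huv, h⟩
  · intro hx u v huv
    exact hx u v huv.1

theorem sg_meas (u : Fin n × Bool) : Measurable fun x : Eu (Fin n) => sg (fun i => x i) u := by
  unfold sg
  split_ifs
  · exact Measurable.neg (by fun_prop)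
  · fun_prop

theorem conE_meas (S : Fin n × Bool → Fin n × Bool → Prop) : MeasurableSet (conE S) := by
  have : conE S = ⋂ u, ⋂ v, ⋂ (_ : S u v),
      {x : Eu (Fin n) | sg (fun i => x i) u ≤ sg (fun i => x i) v} := by
    ext x
    simp only [conE, mem_ofPred_eq, mem_iInter]
  rw [this]
  exact MeasurableSet.iInter fun u => MeasurableSet.iInter fun v => MeasurableSet.iInter fun _ =>
    measurableSet_le (sg_meas u) (sg_meas v)

theorem wS_meas {h : ℝ → ℝ} (hh : Measurable h) (S : Fin n × Bool → Fin n × Bool → Prop) :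
    Measurable (wS h S) := by
  unfold wS
  refine Measurable.ite (conE_meas S) ?_ measurable_const
  exact Finset.measurable_prod _ fun i _ => hh.comp (by fun_prop)

theorem wS_nonneg {h : ℝ → ℝ} (hh : ∀ s, 0 ≤ h s) (S : Fin n × Bool → Fin n × Bool → Prop)
    (x : Eu (Fin n)) : 0 ≤ wS h S x := by
  unfold wS
  split_ifs
  · exact Finset.prod_nonneg fun i _ => hh _
  · exact le_rfl

theorem iid_con (h : LCD ρ) (S : Fin n × Bool → Fin n × Bool → Prop) :
    iid n ρ (conE S) = Pn n ρ (conP S) := by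
  have hm : Measurable (WithLp.toLp 2 : (Fin n → ℝ) → Eu (Fin n)) :=
    (PiLp.volume_preserving_toLp (Fin n)).measurable
  rw [iid_eq h, Measure.map_apply hm (conE_meas S)]
  rfl

theorem int_con (h : LCD ρ) (S : Fin n × Bool → Fin n × Bool → Prop) {g : Eu (Fin n) → ℝ}
    (hg : Continuous g) :
    ∫ x in conE S, g x ∂(iid n ρ) = ∫ x in conP S, g (WithLp.toLp 2 x) ∂(Pn n ρ) := by
  have hm : Measurable (WithLp.toLp 2 : (Fin n → ℝ) → Eu (Fin n)) :=
    (PiLp.volume_preserving_toLp (Fin n)).measurable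
  rw [iid_eq h, setIntegral_map (conE_meas S) hg.aestronglyMeasurable hm.aemeasurable]
  rfl

theorem int_wS (h : LCD ρ) (S : Fin n × Bool → Fin n × Bool → Prop) (g : Eu (Fin n) → ℝ) :
    ∫ x in conE S, g x ∂(iid n ρ) = ∫ x, g x * wS ρ S x := by
  classical
  have hc := conE_meas (n := n) S
  unfold iid
  rw [restrict_withDensity hc, integral_withDensity_eq_integral_toReal_smul (dens_meas h)
    (Eventually.of_forall fun x => ENNReal.prod_lt_top fun i _ => ENNReal.ofReal_lt_top),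
    ← integral_indicator hc]
  congr 1
  funext x
  unfold wS
  by_cases hx : x ∈ conE S
  · rw [indicator_of_mem hx, if_pos hx, ENNReal.toReal_prod, smul_eq_mul, mul_comm]
    congr 1
    exact Finset.prod_congr rfl fun i _ => ENNReal.toReal_ofReal (h.nonneg _)
  · rw [indicator_of_notMem hx, if_neg hx, mul_zero]

theorem wS_int (h : LCD ρ) (S : Fin n × Bool → Fin n × Bool → Prop) : Integrable (wS ρ S) ∧
    ∫ x, wS ρ S x = (iid n ρ (conE S)).toReal := by
  have hp := iid_prob (n := n) h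
  constructor
  · have hm := wS_meas h.meas S
    refine ⟨hm.aestronglyMeasurable, ?_⟩
    rw [hasFiniteIntegral_iff_ofReal (Eventually.of_forall (wS_nonneg h.nonneg S))]
    have h1 : ∀ x, ENNReal.ofReal (wS ρ S x) ≤ ∏ i, ENNReal.ofReal (ρ (x i)) := by
      intro x
      unfold wS
      split_ifs
      · rw [ENNReal.ofReal_prod_of_nonneg fun i _ => h.nonneg _]
      · simp
    refine (lintegral_mono h1).trans_lt ?_
    have h2 := hp.measure_univ
    unfold iid at h2
    rw [withDensity_apply _ MeasurableSet.univ, setLIntegral_univ] at h2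
    rw [h2]
    exact ENNReal.one_lt_top
  · have h1 := int_wS h S (fun _ => (1 : ℝ))
    simp only [one_mul] at h1
    rw [← h1, setIntegral_const]
    simp [Measure.real]

/-- SB-FACTS -/
theorem t_FACTS : S_CORE → S_APX → S_FACTS := by
  intro hcore hapx n ρ S h heven hZne
  obtain ⟨hp, hmax, H⟩ := hcore ρ h heven
  have hR' : ∀ a, ¬ stS S a a := fun a ha => ha.2 rfl
  obtain ⟨-, hP⟩ := H n (stS S) hR'
  have hipr := iid_prob (n := n) h
  have hprob : IsProbabilityMeasure (nus ρ S) := ProbabilityTheory.cond_isProbabilityMeasure hZne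
  obtain ⟨Z, hZ⟩ : ∃ Z, Z = (iid n ρ (conE S)).toReal := ⟨_, rfl⟩
  have hZ0 : 0 < Z := by rw [hZ]; exact ENNReal.toReal_pos hZne (measure_ne_top _ _)
  have hint1 : ∀ g : Eu (Fin n) → ℝ,
      ∫ x, g x ∂(nus ρ S) = (∫ x in conE S, g x ∂(iid n ρ)) / Z := by
    intro g
    unfold nus ProbabilityTheory.cond
    rw [integral_smul_measure, ENNReal.toReal_inv, ← hZ, smul_eq_mul, inv_mul_eq_div]
  -- the Poincare inequality
  have hPoi : ∀ (v : Eu (Fin n) → ℝ) (B L : ℝ), ContDiff ℝ 1 v → (∀ x, |v x| ≤ B) →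
      (∀ x, ‖fderiv ℝ v x‖ ≤ L) → (∫ x, v x ^ 2 ∂(nus ρ S)) - (∫ x, v x ∂(nus ρ S)) ^ 2 ≤
        1 / ρ 0 ^ 2 * ∫ x, ‖fderiv ℝ v x‖ ^ 2 ∂(nus ρ S) := by
    intro v B L hv hB hL
    have hv' : ContDiff ℝ 1 (v ∘ Pool.Agent.R711.POBE.L n) :=
      hv.comp (Pool.Agent.R711.POBE.L n).contDiff
    have hen : ∀ x, en (v ∘ Pool.Agent.R711.POBE.L n) x = ‖fderiv ℝ v (WithLp.toLp 2 x)‖ ^ 2 :=
      fun x => Pool.Agent.R711.POBE.sum_pd v x
    have h1 := hP (v ∘ Pool.Agent.R711.POBE.L n) B (L ^ 2) hv' (fun x => hB _) (fun x => by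
      rw [hen]
      exact pow_le_pow_left₀ (norm_nonneg _) (hL _) 2)
    have e1 : ∫ x in conP (stS S), (v ∘ Pool.Agent.R711.POBE.L n) x ∂(Pn n ρ) =
        ∫ x in conE S, v x ∂(iid n ρ) := by
      rw [← conE_st S, int_con h (stS S) hv.continuous]
      rfl
    have e2 : ∫ x in conP (stS S), (v ∘ Pool.Agent.R711.POBE.L n) x ^ 2 ∂(Pn n ρ) =
        ∫ x in conE S, v x ^ 2 ∂(iid n ρ) := by
      have := int_con h (stS S) (g := fun x => v x ^ 2) (hv.continuous.pow 2)
      rw [← conE_st S, this]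
      rfl
    have e3 : ∫ x in conP (stS S), en (v ∘ Pool.Agent.R711.POBE.L n) x ∂(Pn n ρ) =
        ∫ x in conE S, ‖fderiv ℝ v x‖ ^ 2 ∂(iid n ρ) := by
      have := int_con h (stS S) (g := fun x => ‖fderiv ℝ v x‖ ^ 2)
        ((hv.continuous_fderiv one_ne_zero).norm.pow 2)
      rw [← conE_st S, this]
      simp only [hen]
    rw [e1, e2, e3, ← iid_con h, conE_st, ← hZ] at h1
    rw [hint1, hint1, hint1]
    have e4 : (∫ x in conE S, v x ^ 2 ∂(iid n ρ)) / Z -
        ((∫ x in conE S, v x ∂(iid n ρ)) / Z) ^ 2 =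
        (Z * (∫ x in conE S, v x ^ 2 ∂(iid n ρ)) - (∫ x in conE S, v x ∂(iid n ρ)) ^ 2) /
          Z ^ 2 := by
      field_simp
    have e5 : 1 / ρ 0 ^ 2 * ((∫ x in conE S, ‖fderiv ℝ v x‖ ^ 2 ∂(iid n ρ)) / Z) =
        (Z * (1 / ρ 0 ^ 2 * ∫ x in conE S, ‖fderiv ℝ v x‖ ^ 2 ∂(iid n ρ))) / Z ^ 2 := by
      field_simp
    rw [e4, e5]
    exact div_le_div_of_nonneg_right h1 (by positivity)
  -- the approximation
  obtain ⟨hwi, hwZ⟩ := wS_int h (n := n) S
  have hlim : Lim (nus ρ S) := by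
    refine lim_of (wS ρ S) (wS_nonneg h.nonneg S) hwi (by rw [hwZ, ← hZ]; exact hZ0) (nus ρ S)
      ?_ ?_
    · intro g hg hg1
      rw [hint1, int_wS h S, hwZ, ← hZ]
    · intro ε hε
      have hwe : wS ρ (stS S) = wS ρ S := by
        funext x
        unfold wS
        rw [conE_st]
      obtain ⟨U, h1, h2, h3⟩ := hapx n ρ (stS S) h hR' (by rw [hwe]; exact hwi) ε hε
      rw [hwe] at h3
      exact ⟨U, h1, h2, h3⟩
  refine ⟨hp, hmax, hprob, hPoi, fun A => ?_⟩
  have hCp : 0 < 1 / ρ 0 ^ 2 := by positivity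
  have hsq : Real.sqrt (1 / ρ 0 ^ 2) = 1 / ρ 0 := by
    rw [Real.sqrt_div zero_le_one, Real.sqrt_one, Real.sqrt_sq hp.le]
  have h1 := minka (nus ρ S) (4 / ρ 0) (by positivity) (fun f L M hf hfb => by
    have h2 := lev (nus ρ S) hlim (1 / ρ 0 ^ 2) hCp (fun v L hv hv1 hv2 => hPoi v 1 L hv hv1 hv2)
      f L M hf hfb
    rw [hsq] at h2
    have e : 4 * (1 / ρ 0) = 4 / ρ 0 := by ring
    rwa [e] at h2) A
  exact h1

end Pool.Agent.U394.SB
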